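import Pool.Agent.Helper30.Full.GoalsE

/-!
# Packet E2: pure elements of large order
-/

set_option autoImplicit false

namespace Pool.Agent.Helper90.Full

open Pool.Agent.Helper30.Full

universe u

theorem stmtE2 : StmtE2.{u} := by
  intro p _ d X _ _ _ _ _ b hb g hg N
  by_contra hcon
  push Not at hcon
  obtain ⟨x0, h0, h1⟩ := hb.unb g hg N
  have claim : ∀ n, N ≤ n → ∃ e, (b.T g ^ N) x0 = (b.T g ^ n) e := by
    intro n hn
    induction n, hn using Nat.le_induction with
    | base => exact ⟨x0, rfl⟩
    | succ n hn ih =>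
      obtain ⟨e, he⟩ := ih
      have h2 : (b.T g ^ (n + 1)) e = 0 := by
        rw [pow_succ']
        change b.T g ((b.T g ^ n) e) = 0
        rw [← he]
        have h3 : b.T g ((b.T g ^ N) x0) = (b.T g ^ (N + 1)) x0 := by
          rw [pow_succ']
          rfl
        rw [h3, h0]
      obtain ⟨x, hx⟩ := hcon n hn e h2
      exact ⟨x, he.trans hx⟩
  apply h1
  have h3 : (b.T g ^ N) x0 ∈ (⊥ : AddSubgroup X) := by
    refine mem_closed b ⊥ ?_ _ ?_
    · rw [AddSubgroup.coe_bot]
      exact isClosed_singleton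
    · intro U hU inv _
      obtain ⟨M, hM⟩ := exists_nilp b U hU inv g
      obtain ⟨e, he⟩ := claim (max M N) (le_max_right _ _)
      refine ⟨0, AddSubgroup.zero_mem _, ?_⟩
      rw [sub_zero, he]
      exact hM _ (le_max_left _ _) e
  exact AddSubgroup.mem_bot.1 h3

end Pool.Agent.Helper90.Full
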