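import Pool.Agent.Helper30.Full.GoalsW

/-!
# Packet Sq: small elements
-/

set_option autoImplicit false
set_option linter.unusedSectionVars false

namespace Pool.Agent.Helper90.Full

open Pool.Agent.Helper30.Full

universe u

section

variable {p : ℕ} [Fact p.Prime] {d : ℕ} {X : Type u} [AddCommGroup X] [TopologicalSpace X]
  (b : Act p d X)

/-- `T_(p h) = p T_h + T_h^2 R`. -/
theorem Tp (h : Fin d → ℤ_[p]) : ∃ R : AddMonoid.End X,
    b.T (p • h) = p • b.T h + b.T h * (b.T h * R) := by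
  refine ⟨∑ i ∈ Finset.range p, ∑ j ∈ Finset.range i, b.σ h ^ j, ?_⟩
  have h1 : b.T (p • h) = b.σ h ^ p - 1 := by
    unfold Act.T
    rw [σ_nsmul]
  have h2 : b.σ h ^ p - 1 = b.T h * ∑ i ∈ Finset.range p, b.σ h ^ i :=
    (mul_geom_sum (b.σ h) p).symm
  have h3 : ∀ i, b.σ h ^ i = b.T h * (∑ j ∈ Finset.range i, b.σ h ^ j) + 1 := by
    intro i
    have h4 : b.T h * (∑ j ∈ Finset.range i, b.σ h ^ j) = b.σ h ^ i - 1 :=
      mul_geom_sum (b.σ h) i
    rw [h4, sub_add_cancel]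
  rw [h1, h2, Finset.sum_congr rfl (fun i _ => h3 i), Finset.sum_add_distrib, ← Finset.mul_sum,
    mul_add, Finset.sum_const, Finset.card_range, mul_smul_comm, mul_one, add_comm]

variable [IsTopologicalAddGroup X] [CompactSpace X] [T2Space X]

theorem step (h : Fin d → ℤ_[p]) (H : ∀ x, ∃ y, b.T h x = p ^ 2 • y) :
    (∀ x, ∃ y, b.T (p • h) x = p • b.T h y) ∧ ∀ x, ∃ y, p • b.T h x = b.T (p • h) y := by
  obtain ⟨R, hR⟩ := Tp b h
  have e1 : ∀ x, b.T (p • h) x = p • b.T h x + b.T h (b.T h (R x)) := by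
    intro x
    rw [hR]
    rfl
  constructor
  · intro x
    obtain ⟨y, hy⟩ := H (R x)
    refine ⟨x + p • y, ?_⟩
    rw [e1, hy, map_nsmul, map_add, map_nsmul, smul_add, pow_two, mul_smul]
  · have key : (AddMonoidHom.range (p • b.T h : AddMonoid.End X)) ≤
        (AddMonoidHom.range (b.T (p • h))) := by
      refine nakayama b h _ _ (closed_rangeT b (p • h)) ?_ ?_
      · rintro _ ⟨x, rfl⟩
        refine ⟨b.T h x, ?_⟩
        exact T_comm_apply b (p • h) h x
      · rintro _ ⟨x, rfl⟩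
        obtain ⟨y, hy⟩ := H (R x)
        refine ⟨b.T (p • h) x, ⟨x, rfl⟩, 0, AddSubgroup.zero_mem _, p • b.T h (-y), ⟨-y, rfl⟩, ?_⟩
        change p • b.T h x = _
        rw [map_zero, add_zero, e1, hy, map_nsmul, map_neg, smul_neg, smul_neg, pow_two, mul_smul]
        abel
    intro x
    obtain ⟨y, hy⟩ := key ⟨x, rfl⟩
    exact ⟨y, hy.symm⟩

end

theorem stmtSq : StmtSq.{u} := by
  intro p _ d X _ _ _ _ _ b h H
  have main : ∀ l : ℕ, (∀ x, ∃ y, b.T (p ^ l • h) x = p ^ 2 • y) ∧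
      ∀ x, (∃ y, b.T (p ^ l • h) x = p ^ l • b.T h y) ∧
        ∃ y, p ^ l • b.T h x = b.T (p ^ l • h) y := by
    intro l
    induction l with
    | zero =>
      simp only [pow_zero, one_smul]
      exact ⟨H, fun x => ⟨⟨x, rfl⟩, ⟨x, rfl⟩⟩⟩
    | succ l ih =>
      obtain ⟨i1, i2⟩ := ih
      obtain ⟨s1, s2⟩ := step b (p ^ l • h) i1
      have e : p ^ (l + 1) • h = p • (p ^ l • h) := by rw [pow_succ', mul_smul]
      rw [e]
      refine ⟨?_, fun x => ⟨?_, ?_⟩⟩
      · intro x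
        obtain ⟨y, hy⟩ := s1 x
        obtain ⟨z, hz⟩ := i1 y
        exact ⟨p • z, by rw [hy, hz, smul_comm]⟩
      · obtain ⟨y, hy⟩ := s1 x
        obtain ⟨z, hz⟩ := (i2 y).1
        exact ⟨z, by rw [hy, hz, pow_succ', mul_smul]⟩
      · obtain ⟨y, hy⟩ := (i2 x).2
        obtain ⟨z, hz⟩ := s2 y
        exact ⟨z, by rw [pow_succ', mul_smul, hy, hz]⟩
  intro l x
  exact (main l).2 x

end Pool.Agent.Helper90.Full
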